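import Pool.Agent.P8H47.FP.Stm4

/-! # Project FP, package DECT -/

set_option autoImplicit false

namespace Pool.Agent.P8H40.FP

open Pool.Agent.P8H47.FP
open Pool.Agent.P8H47.EC (Cp MinCp)
open Pool.Agent.P8H47.EC3 (Imm Z Z_lt mem_Z lt_comap lt_iff)

section

variable {F K : Type} [Field F] [Field K] [Algebra F K]

/-- an automorphism of finite order on an element does not change the value -/
lemma val_eq {O : ValuationSubring K} {σ : K ≃ₐ[F] K} (hσ : σ ∈ Z (F := F) O) {x : K} {n : ℕ} (hn : 0 < n)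
    (hx : (σ ^ n) x = x) : O.valuation (σ x) = O.valuation x := by
  by_cases hx0 : x = 0
  · rw [hx0, map_zero]
  -- one direction
  have key : ∀ (σ : K ≃ₐ[F] K), σ ∈ Z (F := F) O → (σ ^ n) x = x → ¬ O.valuation (σ x) < O.valuation x := by
    intro σ hσ hx hlt
    have hvx : O.valuation x ≠ 0 := (map_ne_zero _).2 hx0
    have h1 : O.valuation (σ x / x) < 1 := by
      rw [map_div₀, div_lt_one₀ (zero_lt_iff.2 hvx)]
      exact hlt
    have hpow : ∀ i : ℕ, σ ^ i ∈ Z (F := F) O := fun i => pow_mem hσ i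
    have h2 : ∀ i : ℕ, 0 < i → O.valuation ((σ ^ i) x / x) < 1 := by
      intro i hi
      induction i with
      | zero => omega
      | succ i ih =>
        rcases Nat.eq_zero_or_pos i with rfl | hi'
        · rw [zero_add, pow_one]
          exact h1
        · have h3 := ih hi'
          have h4 := Z_lt (hpow i) h1
          have h5 : (σ ^ (i + 1)) x / x = (σ ^ i) (σ x / x) * ((σ ^ i) x / x) := by
            have h6 : (σ ^ i) x ≠ 0 := fun h0 => hx0 (by
              have := (map_eq_zero (σ ^ i)).1 h0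
              exact this)
            rw [pow_succ, map_div₀]
            show (σ ^ i) (σ x) / x = (σ ^ i) (σ x) / (σ ^ i) x * ((σ ^ i) x / x)
            field_simp
          rw [h5, map_mul]
          exact mul_lt_one_of_lt_of_le h4 h3.le
    have h3 := h2 n hn
    rw [hx, div_self hx0, map_one] at h3
    exact lt_irrefl _ h3
  apply le_antisymm
  · rw [← not_lt]
    intro hlt
    -- use the inverse at `x`
    have hinv : (σ⁻¹ ^ n) x = x := by
      have h1 : (σ⁻¹ ^ n) ((σ ^ n) x) = x := by
        rw [← AlgEquiv.mul_apply, inv_pow, inv_mul_cancel]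
        rfl
      rwa [hx] at h1
    apply key σ⁻¹ (inv_mem hσ) hinv
    -- `v (σ⁻¹ x) < v x` from `v x < v (σ x)`
    have hvs : O.valuation (σ x) ≠ 0 := (map_ne_zero _).2 (by rwa [Ne, map_eq_zero])
    have h1 : O.valuation (x / σ x) < 1 := by
      rw [map_div₀, div_lt_one₀ (zero_lt_iff.2 hvs)]
      exact hlt
    have h2 := Z_lt (inv_mem hσ) h1
    have hvx : O.valuation x ≠ 0 := (map_ne_zero _).2 hx0
    rw [map_div₀] at h2
    have h3 : σ⁻¹ (σ x) = x := by
      rw [← AlgEquiv.mul_apply, inv_mul_cancel]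
      rfl
    rw [h3, map_div₀, div_lt_one₀ (zero_lt_iff.2 hvx)] at h2
    exact h2
  · rw [← not_lt]
    exact key σ hσ hx

end

theorem dect : S_DECT := by
  intro F _ h2 K hGal hL hsq O h2O hI hR hτ T' hT'
  classical
  obtain ⟨τ, hτZ, hτ1, hτI⟩ := hτ
  set E := IntermediateField.fixedField (Z (F := F) O) with hE
  have h22 : algebraMap F K 2 = 2 := map_ofNat _ 2
  have h2K : (2 : K) ≠ 0 := by
    have := (map_ne_zero (algebraMap F K)).2 h2
    rwa [h22] at this
  have hEmem : ∀ x, x ∈ E ↔ ∀ σ ∈ Z (F := F) O, σ x = x := by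
    intro x
    rw [hE, IntermediateField.mem_fixedField_iff]
  refine ⟨?_, ?_, ?_⟩
  · rw [ValuationSubring.mem_comap, map_inv₀, Nat.cast_ofNat, h22]
    exact h2O
  · intro x hx hx'
    have h3 : O.valuation (algebraMap F K x) < 1 := by
      rw [← lt_comap, lt_iff]
      exact Or.inr hx'
    obtain ⟨β, hβ, hβ2⟩ := hR _ (E.algebraMap_mem x) h3
    have h4 : (1 : F) + x ≠ 0 := by
      intro h0
      have h5 : O.valuation (1 + algebraMap F K x) = 1 := O.valuation.map_one_add_of_lt h3
      have h6 : 1 + algebraMap F K x = 0 := by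
        rw [← map_one (algebraMap F K), ← map_add, h0, map_zero]
      rw [h6, map_zero] at h5
      exact zero_ne_one h5
    refine ⟨Units.mk0 _ h4, (hT' _).2 ⟨β, hβ, ?_⟩, rfl⟩
    rw [hβ2, Units.val_mk0, map_add, map_one]
  · intro htop
    -- values of `E` are squares
    have hH : ∀ e ∈ E, e ≠ 0 → ∃ y ∈ E, y ≠ 0 ∧ O.valuation e = O.valuation y ^ 2 := by
      intro e he he0
      obtain ⟨f, hf, m, hm, hm1, e1⟩ := hI e he he0
      have h3 : Units.mk0 f hf ∈ (O.comap (algebraMap F K)).unitGroup ⊔ T' := by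
        rw [htop]
        exact Subgroup.mem_top _
      obtain ⟨u, hu, t, ht, e2⟩ := Subgroup.mem_sup.1 h3
      obtain ⟨y, hy, hy2⟩ := (hT' t).1 ht
      have hy0 : y ≠ 0 := by
        rintro rfl
        rw [zero_pow two_ne_zero] at hy2
        exact t.ne_zero ((map_eq_zero (algebraMap F K)).1 hy2.symm)
      refine ⟨y, hy, hy0, ?_⟩
      have hu1 : O.valuation (algebraMap F K u) = 1 := by
        have h4 : (u : F) ∈ O.comap (algebraMap F K) :=
          (O.comap (algebraMap F K)).valuation_le_one_iff _ |>.1 (le_of_eq ((O.comap (algebraMap F K)).mem_unitGroup_iff u |>.1 hu))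
        have h5 : ((u⁻¹ : Fˣ) : F) ∈ O.comap (algebraMap F K) :=
          (O.comap (algebraMap F K)).valuation_le_one_iff _ |>.1
            (le_of_eq ((O.comap (algebraMap F K)).mem_unitGroup_iff u⁻¹ |>.1 (inv_mem hu)))
        rw [ValuationSubring.mem_comap, ← O.valuation_le_one_iff] at h4 h5
        apply le_antisymm h4
        rw [Units.val_inv_eq_inv_val, map_inv₀, map_inv₀] at h5
        have h6 : O.valuation (algebraMap F K u) ≠ 0 := (map_ne_zero _).2 ((map_ne_zero _).2 u.ne_zero)
        exact (one_le_inv₀ (by exact zero_lt_iff.2 (inv_ne_zero h6)) |>.2 h5).trans (by rw [inv_inv])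
      have e3 : f = u * t := by
        have := congrArg Units.val e2
        rw [Units.val_mul, Units.val_mk0] at this
        exact this.symm
      rw [e1, map_mul, O.valuation.map_one_add_of_lt hm1, mul_one, e3, map_mul, map_mul, hu1, one_mul, ← hy2, map_pow]
    have hH2 : ∀ (k : ℕ), ∀ e ∈ E, e ≠ 0 → ∃ y ∈ E, y ≠ 0 ∧ O.valuation e = O.valuation y ^ (2 ^ k) := by
      intro k
      induction k with
      | zero =>
        intro e he he0
        exact ⟨e, he, he0, by simp⟩
      | succ k ih =>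
        intro e he he0
        obtain ⟨y, hy, hy0, h3⟩ := ih e he he0
        obtain ⟨y', hy', hy'0, h4⟩ := hH y hy hy0
        exact ⟨y', hy', hy'0, by rw [h3, h4, ← pow_mul, pow_succ, mul_comm]⟩
    -- (1) every value is the value of an element of `E`
    have h1 : ∀ x : K, x ≠ 0 → ∃ e ∈ E, e ≠ 0 ∧ O.valuation x = O.valuation e := by
      intro x hx0
      obtain ⟨L, hxL, hfd, hgal, k, hk⟩ := hL x
      let ρ : (K ≃ₐ[F] K) →* (L ≃ₐ[F] L) := AlgEquiv.restrictNormalHom L
      have hρ : ∀ (σ : K ≃ₐ[F] K) (y : L), ((ρ σ y : L) : K) = σ (y : K) := fun σ y =>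
        AlgEquiv.restrictNormal_commutes σ L y
      let S : Subgroup (L ≃ₐ[F] L) := (Z (F := F) O).map ρ
      let x' : L := ⟨x, hxL⟩
      obtain ⟨j, hj⟩ : ∃ j, Nat.card S = 2 ^ j := by
        have h3 : Nat.card S ∣ 2 ^ k := by
          rw [← hk, ← IsGalois.card_aut_eq_finrank F L]
          exact Subgroup.card_subgroup_dvd_card S
        obtain ⟨j, -, hj⟩ := (Nat.dvd_prime_pow Nat.prime_two).1 h3
        exact ⟨j, hj⟩
      let N : K := ∏ σ : S, ((σ.1 x' : L) : K)
      have hNE : N ∈ E := by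
        rw [hEmem]
        intro σ hσ
        show σ (∏ σ' : S, ((σ'.1 x' : L) : K)) = _
        rw [map_prod]
        have h3 : ∀ σ' : S, σ ((σ'.1 x' : L) : K) = (((⟨ρ σ, ⟨σ, hσ, rfl⟩⟩ * σ' : S).1 x' : L) : K) := fun σ' => by
          rw [← hρ]
          rfl
        simp only [h3]
        exact Fintype.prod_equiv (Equiv.mulLeft (⟨ρ σ, ⟨σ, hσ, rfl⟩⟩ : S)) _ _ fun _ => rfl
      have hval : ∀ σ' : S, O.valuation ((σ'.1 x' : L) : K) = O.valuation x := by
        rintro ⟨_, σ, hσ, rfl⟩
        show O.valuation ((ρ σ x' : L) : K) = _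
        rw [hρ]
        refine val_eq hσ (n := orderOf (ρ σ)) (orderOf_pos _) ?_
        have h3 := hρ (σ ^ orderOf (ρ σ)) x'
        rw [map_pow, pow_orderOf_eq_one] at h3
        exact h3.symm
      have hvN : O.valuation N = O.valuation x ^ (2 ^ j) := by
        show O.valuation (∏ σ' : S, ((σ'.1 x' : L) : K)) = _
        rw [map_prod]
        simp only [hval]
        rw [Finset.prod_const, Finset.card_univ, ← Nat.card_eq_fintype_card, hj]
      have hN0 : N ≠ 0 := by
        intro h0
        rw [h0, map_zero] at hvN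
        exact pow_ne_zero _ ((map_ne_zero O.valuation).2 hx0) hvN.symm
      obtain ⟨e, he, he0, h3⟩ := hH2 j N hNE hN0
      refine ⟨e, he, he0, ?_⟩
      rw [hvN] at h3
      exact (pow_left_inj₀ zero_le zero_le (by positivity)).1 h3
    -- (2) `τ x / x ∈ 1 + m`
    have h3 : ∀ x : K, x ≠ 0 → O.valuation (τ x / x - 1) < 1 := by
      intro x hx0
      obtain ⟨e, he, he0, hv⟩ := h1 x hx0
      have hve : O.valuation e ≠ 0 := (map_ne_zero _).2 he0
      have hu1 : O.valuation (x / e) = 1 := by
        rw [map_div₀, hv, div_self hve]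
      have hu : x / e ∈ O := (O.valuation_le_one_iff _).1 hu1.le
      have h4 := hτI _ hu
      have h5 : τ x / x - 1 = (τ (x / e) - x / e) / (x / e) := by
        rw [map_div₀, (hEmem e).1 he τ hτZ]
        field_simp
      rw [h5, map_div₀, hu1, div_one]
      exact h4
    -- (3) an element with `τ s = - s`
    obtain ⟨s, hs0, hs⟩ : ∃ s : K, s ≠ 0 ∧ τ s = -s := by
      obtain ⟨x, hx⟩ : ∃ x, τ x ≠ x := by
        by_contra hcon
        push Not at hcon
        exact hτ1 (AlgEquiv.ext hcon)
      obtain ⟨L, hxL, hfd, hgal, k, hk⟩ := hL x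
      let ρ : (K ≃ₐ[F] K) →* (L ≃ₐ[F] L) := AlgEquiv.restrictNormalHom L
      have hρ : ∀ (σ : K ≃ₐ[F] K) (y : L), ((ρ σ y : L) : K) = σ (y : K) := fun σ y =>
        AlgEquiv.restrictNormal_commutes σ L y
      obtain ⟨y, hy1, hy2⟩ : ∃ y : L, (ρ τ) ((ρ τ) y) = y ∧ (ρ τ) y ≠ y := by
        by_contra hcon
        push Not at hcon
        have h4 : ρ τ ∈ (IntermediateField.fixedField (Subgroup.zpowers (ρ τ * ρ τ))).fixingSubgroup := by
          rw [IntermediateField.mem_fixingSubgroup_iff]
          intro y hy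
          apply hcon
          rw [IntermediateField.mem_fixedField_iff] at hy
          exact hy _ (Subgroup.mem_zpowers _)
        rw [IntermediateField.fixingSubgroup_fixedField] at h4
        obtain ⟨i, hi⟩ := h4
        have h5 : (ρ τ) ^ (2 * i - 1) = 1 := by
          have h6 : (ρ τ * ρ τ) ^ i = ρ τ := hi
          rw [zpow_sub, zpow_mul, zpow_ofNat, sq, h6, zpow_one, mul_inv_cancel]
        have h6 : ((orderOf (ρ τ) : ℕ) : ℤ) ∣ 2 * i - 1 := orderOf_dvd_iff_zpow_eq_one.2 h5
        have h7 : orderOf (ρ τ) ∣ 2 ^ k := by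
          rw [← hk, ← IsGalois.card_aut_eq_finrank F L]
          exact orderOf_dvd_natCard _
        obtain ⟨j, -, hj⟩ := (Nat.dvd_prime_pow Nat.prime_two).1 h7
        have hj0 : j = 0 := by
          by_contra hj0
          have h8 : ((2 : ℕ) : ℤ) ∣ 2 * i - 1 := by
            refine dvd_trans ?_ h6
            rw [hj]
            exact_mod_cast dvd_pow_self 2 hj0
          omega
        rw [hj0, pow_zero, orderOf_eq_one_iff] at hj
        apply hx
        have h9 := hρ τ ⟨x, hxL⟩
        rw [hj] at h9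
        exact h9.symm
      refine ⟨(y : K) - τ y, ?_, ?_⟩
      · rw [sub_ne_zero]
        intro h0
        apply hy2
        apply Subtype.ext
        rw [hρ]
        exact h0.symm
      · rw [map_sub]
        have h4 : τ (τ (y : K)) = y := by
          rw [← hρ, ← hρ, hy1]
        rw [h4]
        ring
    have h4 := h3 s hs0
    rw [hs, neg_div, div_self hs0] at h4
    have h5 : O.valuation ((-1 : K) - 1) * O.valuation (2 : K)⁻¹ < 1 :=
      mul_lt_one_of_lt_of_le h4 ((O.valuation_le_one_iff _).2 h2O)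
    rw [← map_mul] at h5
    have h6 : ((-1 : K) - 1) * (2 : K)⁻¹ = -1 := by
      field_simp
      norm_num
    rw [h6, Valuation.map_neg, map_one] at h5
    exact lt_irrefl _ h5

end Pool.Agent.P8H40.FP
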