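import Pool.Agent.P8H47.FP.Stm

/-! # Project FP, package FREE -/

set_option autoImplicit false

namespace Pool.Agent.P8H40.FP

open Pool.Agent.P8H47.FP

variable {F K : Type} [Field F] [Field K] [Algebra F K]

lemma mem_Fx {H : Subgroup (K ≃ₐ[F] K)} {x : K} : x ∈ Fx H ↔ ∀ h ∈ H, h x = x := by
  unfold Fx
  rw [IntermediateField.mem_toSubfield, IntermediateField.mem_fixedField_iff]

lemma unit_cases (ε : ℤˣ) : ε = 1 ∨ ε = -1 := Int.units_eq_one_or ε

lemma cp_one {P : Type} [Group P] (c : P) : cp c 1 = 1 := by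
  unfold cp
  rw [if_pos rfl]

lemma cp_neg {P : Type} [Group P] (c : P) : cp c (-1) = c := by
  unfold cp
  rw [if_neg (by decide)]

lemma cp_mul {P : Type} [Group P] {c : P} (hc : c * c = 1) (a b : ℤˣ) : cp c (a * b) = cp c a * cp c b := by
  rcases unit_cases a with rfl | rfl <;> rcases unit_cases b with rfl | rfl
  · rw [one_mul, cp_one, one_mul]
  · rw [one_mul, cp_one, one_mul]
  · rw [mul_one, cp_one, mul_one]
  · rw [neg_mul_neg, one_mul, cp_one, cp_neg, hc]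

lemma cp_inj {P : Type} [Group P] {c : P} (hc : c ≠ 1) {a b : ℤˣ} (h : cp c a = cp c b) : a = b := by
  rcases unit_cases a with rfl | rfl <;> rcases unit_cases b with rfl | rfl
  · rfl
  · rw [cp_one, cp_neg] at h
    exact absurd h.symm hc
  · rw [cp_one, cp_neg] at h
    exact absurd h hc
  · rfl

lemma cp_comm {P : Type} [Group P] {c : P} (hc : ∀ x, x * c = c * x) (a : ℤˣ) (x : P) : x * cp c a = cp c a * x := by
  rcases unit_cases a with rfl | rfl
  · rw [cp_one, mul_one, one_mul]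
  · rw [cp_neg, hc]

lemma sgn_inj (h2 : (2 : K) ≠ 0) {x : K} (hx : x ≠ 0) {a b : ℤˣ} (h : (((a : ℤˣ) : ℤ) : K) * x = (((b : ℤˣ) : ℤ) : K) * x) :
    a = b := by
  have h1 := mul_right_cancel₀ hx h
  rcases unit_cases a with rfl | rfl <;> rcases unit_cases b with rfl | rfl
  · rfl
  · exfalso
    apply h2
    have h3 : (1 : K) = -1 := by simpa using h1
    linear_combination h3
  · exfalso
    apply h2
    have h3 : (-1 : K) = 1 := by simpa using h1
    linear_combination -h3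
  · rfl

/-- open subgroups -/
lemma open_sub {P : Type} [Group P] {H : Subgroup (K ≃ₐ[F] K)} (φ : H →* P) (hφ : IsOpen (φ.ker : Set H)) :
    ∃ V : Subgroup (K ≃ₐ[F] K), IsOpen (V : Set (K ≃ₐ[F] K)) ∧ ∀ v ∈ V, ∀ h : v ∈ H, φ ⟨v, h⟩ = 1 := by
  obtain ⟨O, hO, hOk⟩ := isOpen_induced_iff.1 hφ
  have h1 : (1 : K ≃ₐ[F] K) ∈ O := by
    have h2 : (1 : H) ∈ (Subtype.val ⁻¹' O : Set H) := by
      rw [hOk]
      exact one_mem _
    exact h2
  obtain ⟨E, hE, hEO⟩ := (krullTopology_mem_nhds_one_iff F K O).1 (hO.mem_nhds h1)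
  refine ⟨E.fixingSubgroup, E.fixingSubgroup_isOpen, fun v hv h => ?_⟩
  have h3 : (⟨v, h⟩ : H) ∈ (Subtype.val ⁻¹' O : Set H) := hEO hv
  rw [hOk] at h3
  exact h3

lemma inf_open {G : Type} [Group G] [TopologicalSpace G] {V W : Subgroup G} (hV : IsOpen (V : Set G)) (hW : IsOpen (W : Set G)) :
    IsOpen ((V ⊓ W : Subgroup G) : Set G) := by
  rw [Subgroup.coe_inf]
  exact hV.inter hW

/-- the character of a square root -/
lemma char_sq [IsGalois F K] (h2 : (2 : K) ≠ 0) {x : K} (hx : x ≠ 0) (hx2 : ∀ g : K ≃ₐ[F] K, g (x ^ 2) = x ^ 2) :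
    ∃ χ : (K ≃ₐ[F] K) → ℤˣ, (∀ g h, χ (g * h) = χ g * χ h) ∧ (∀ g : K ≃ₐ[F] K, g x = (((χ g : ℤˣ) : ℤ) : K) * x) ∧
      ∃ V : Subgroup (K ≃ₐ[F] K), IsOpen (V : Set (K ≃ₐ[F] K)) ∧ ∀ v ∈ V, χ v = 1 := by
  classical
  have key : ∀ g : K ≃ₐ[F] K, ∃ ε : ℤˣ, g x = (((ε : ℤˣ) : ℤ) : K) * x := fun g => by
    have h1 := hx2 g
    rw [map_pow] at h1
    rcases sq_eq_sq_iff_eq_or_eq_neg.1 h1 with h3 | h3
    · exact ⟨1, by rw [h3]; simp⟩
    · exact ⟨-1, by rw [h3]; simp⟩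
  choose χ hχ using key
  refine ⟨χ, fun g h => ?_, hχ, ?_⟩
  · apply sgn_inj h2 hx
    rw [← hχ]
    show g (h x) = _
    rw [hχ h, map_mul, map_intCast, hχ g]
    push_cast
    ring
  · have hfin : FiniteDimensional F (IntermediateField.adjoin F {x}) :=
      IntermediateField.adjoin.finiteDimensional (Algebra.IsIntegral.isIntegral x)
    refine ⟨(IntermediateField.adjoin F {x}).fixingSubgroup, IntermediateField.fixingSubgroup_isOpen _, fun v hv => ?_⟩
    apply sgn_inj h2 hx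
    rw [← hχ, (IntermediateField.mem_fixingSubgroup_iff _ _).1 hv x (IntermediateField.mem_adjoin_simple_self F x)]
    simp

/-- existence -/
theorem exist [IsGalois F K] (h2 : (2 : K) ≠ 0) (hsq : ∀ c : K, ∃ y, y ^ 2 = c) (hKUM : S_KUM) (hEMB : C_EMB) {ι : Type}
    (H : ι → Subgroup (K ≃ₐ[F] K)) (hH : ∀ i, IsClosed (H i : Set (K ≃ₐ[F] K)))
    (hLG : LG (Fx (⊤ : Subgroup (K ≃ₐ[F] K))) (fun i => Fx (H i))) : ∀ (k : ℕ) (P : Type) [Group P] [Finite P],
    Nat.card P = 2 ^ k → ∀ φ : (i : ι) → (H i →* P), (∀ i, IsOpen ((φ i).ker : Set (H i))) →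
      ∃ ψ : (K ≃ₐ[F] K) →* P, IsOpen (ψ.ker : Set (K ≃ₐ[F] K)) ∧ ∀ i, ∀ x : H i, ψ (x : K ≃ₐ[F] K) = φ i x := by
  classical
  intro k
  induction k with
  | zero =>
    intro P _ _ hP φ hφ
    rw [pow_zero] at hP
    have hsub : Subsingleton P := (Nat.card_eq_one_iff_unique.1 hP).1
    refine ⟨1, ?_, fun i x => Subsingleton.elim _ _⟩
    have h1 : ((1 : (K ≃ₐ[F] K) →* P).ker : Set (K ≃ₐ[F] K)) = Set.univ := by
      rw [MonoidHom.ker_one]
      rfl
    rw [h1]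
    exact isOpen_univ
  | succ k ih =>
    intro P _ _ hP φ hφ
    have hpg : IsPGroup 2 P := IsPGroup.of_card hP
    have hnt : Nontrivial P := by
      rw [← Finite.one_lt_card_iff_nontrivial, hP]
      exact Nat.one_lt_two_pow (by omega)
    -- the central element of order two
    obtain ⟨c, hc2, hc1, hcc⟩ : ∃ c : P, c * c = 1 ∧ c ≠ 1 ∧ ∀ x, x * c = c * x := by
      have hcn := hpg.center_nontrivial
      obtain ⟨z, hz⟩ := exists_ne (1 : Subgroup.center P)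
      obtain ⟨m, hm⟩ := (hpg.to_subgroup (Subgroup.center P)) z
      have hfin : IsOfFinOrder z := isOfFinOrder_of_finite z
      have hpz : IsPGroup 2 (Subgroup.center P) := hpg.to_subgroup _
      have hdvd : 2 ∣ Nat.card (Subgroup.center P) := by
        obtain ⟨n, hn⟩ := (IsPGroup.iff_card.1 hpz)
        rw [hn]
        have hn0 : n ≠ 0 := by
          rintro rfl
          rw [pow_zero] at hn
          have := (Nat.card_eq_one_iff_unique.1 hn).1
          exact hz (Subsingleton.elim _ _)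
        exact dvd_pow_self 2 hn0
      have : Fact (Nat.Prime 2) := ⟨Nat.prime_two⟩
      obtain ⟨c, hc⟩ := exists_prime_orderOf_dvd_card' 2 hdvd
      refine ⟨c, ?_, ?_, fun x => ?_⟩
      · have h1 := pow_orderOf_eq_one c
        rw [hc, sq] at h1
        exact congrArg Subtype.val h1
      · intro h1
        have h3 : c = 1 := Subtype.ext h1
        rw [h3, orderOf_one] at hc
        omega
      · exact (Subgroup.mem_center_iff.1 c.2 x)
    let C : Subgroup P := Subgroup.zpowers c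
    have hCmem : ∀ x, x ∈ C ↔ x = 1 ∨ x = c := by
      intro x
      constructor
      · rintro ⟨n, rfl⟩
        show c ^ n = 1 ∨ c ^ n = c
        rcases Int.even_or_odd' n with ⟨j, rfl | rfl⟩
        · left
          rw [zpow_mul, zpow_ofNat, sq, hc2, one_zpow]
        · right
          rw [zpow_add, zpow_mul, zpow_ofNat, sq, hc2, one_zpow, one_mul, zpow_one]
      · rintro (h3 | h3)
        · rw [h3]
          exact one_mem _
        · rw [h3]
          exact Subgroup.mem_zpowers c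
    have hCn : C.Normal := ⟨fun n hn g => by
      rcases (hCmem n).1 hn with h3 | h3
      · rw [h3, mul_one, mul_inv_cancel]
        exact one_mem _
      · rw [h3, hcc g, mul_assoc, mul_inv_cancel, mul_one, ← h3]
        exact hn⟩
    let π : P →* P ⧸ C := QuotientGroup.mk' C
    have hπs : Function.Surjective π := QuotientGroup.mk'_surjective C
    have hπk : ∀ x, π x = 1 ↔ x = 1 ∨ x = c := fun x => by
      rw [← hCmem]
      exact QuotientGroup.eq_one_iff x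
    have hcardC : Nat.card C = 2 := by
      rw [Nat.card_zpowers, orderOf_eq_prime (p := 2) (by rw [sq, hc2]) hc1]
    have hcardQ : Nat.card (P ⧸ C) = 2 ^ k := by
      have h1 := Subgroup.card_eq_card_quotient_mul_card_subgroup C
      rw [hP, hcardC, pow_succ] at h1
      omega
    obtain ⟨ψ₁, hψ₁, hψφ⟩ := ih (P ⧸ C) hcardQ (fun i => π.comp (φ i)) (fun i =>
      Subgroup.isOpen_mono (fun x hx => by
        rw [MonoidHom.mem_ker] at hx ⊢
        rw [MonoidHom.comp_apply, hx, map_one]) (hφ i))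
    -- the local lifts
    choose V hVo hV using fun i => open_sub (φ i) (hφ i)
    let f : (i : ι) → (K ≃ₐ[F] K) → P := fun i g => if h : g ∈ H i then φ i ⟨g, h⟩ else 1
    have hf : ∀ i g (h : g ∈ H i), f i g = φ i ⟨g, h⟩ := fun i g h => dif_pos h
    have hfh : ∀ i, HomOn (H i) (f i) := fun i => {
      mul := fun g hg h hh => by
        rw [hf i g hg, hf i h hh, hf i (g * h) (mul_mem hg hh), ← map_mul]
        rfl
      cont := ⟨V i, hVo i, fun v hv hvH => by rw [hf i v hvH, hV i v hv hvH]⟩ }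
    have hKc : IsClosed ((⊤ : Subgroup (K ≃ₐ[F] K)) : Set (K ≃ₐ[F] K)) := by
      rw [Subgroup.coe_top]
      exact isClosed_univ
    obtain ⟨θ, hθ, hθπ⟩ := hEMB F K h2 hsq P (P ⧸ C) π c ⟨k, hcardQ⟩ hπs hπk hc1 hcc ι ⊤ H hKc (fun i => ⟨le_top, hH i⟩) hLG
      ψ₁ ⟨fun g _ h _ => map_mul _ _ _, ψ₁.ker, hψ₁, fun v hv _ => hv⟩ (fun i => ⟨f i, hfh i, fun h hh => by
        rw [hf i h hh, hψφ i ⟨h, hh⟩]
        rfl⟩)
    obtain ⟨V₂, hV₂o, hV₂⟩ := hθ.cont
    have hθm : ∀ g h, θ (g * h) = θ g * θ h := fun g h => hθ.mul g (Subgroup.mem_top _) h (Subgroup.mem_top _)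
    -- the local characters
    have hδ : ∀ i (g : K ≃ₐ[F] K), ∃ ε : ℤˣ, g ∈ H i → f i g = θ g * cp c ε := by
      intro i g
      by_cases hg : g ∈ H i
      · have h3 : π ((θ g)⁻¹ * f i g) = 1 := by
          rw [map_mul, map_inv, hθπ g (Subgroup.mem_top _), hf i g hg, hψφ i ⟨g, hg⟩]
          exact inv_mul_cancel _
        rcases (hπk _).1 h3 with h4 | h4
        · exact ⟨1, fun _ => by rw [cp_one, mul_one]; exact (inv_mul_eq_one.1 h4).symm⟩
        · exact ⟨-1, fun _ => by rw [cp_neg, ← h4, mul_inv_cancel_left]⟩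
      · exact ⟨1, fun h => absurd h hg⟩
    choose δ hδ using hδ
    have hδh : ∀ i, HomOn (H i) (δ i) := fun i => {
      mul := fun g hg h hh => by
        apply cp_inj hc1
        apply mul_left_cancel (a := θ (g * h))
        rw [← hδ i _ (mul_mem hg hh), (hfh i).mul g hg h hh, hδ i g hg, hδ i h hh, cp_mul hc2, hθm,
          mul_assoc, ← mul_assoc (cp c (δ i g)), ← cp_comm hcc (δ i g) (θ h)]
        simp only [mul_assoc]
      cont := ⟨V i ⊓ V₂, inf_open (hVo i) hV₂o, fun v hv hvH => by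
        apply cp_inj hc1
        have h3 := hδ i v hvH
        rw [hf i v hvH, hV i v hv.1 hvH, hV₂ v hv.2 (Subgroup.mem_top _), one_mul] at h3
        rw [← h3, cp_one]⟩ }
    choose e he0 he using fun i => hKUM F K (H i) (hH i) (δ i) (hδh i)
    have he2 : ∀ i, e i ^ 2 ∈ Fx (H i) := fun i => mem_Fx.2 fun h hh => by
      rw [map_pow, he i h hh, mul_pow]
      rcases unit_cases (δ i h) with h3 | h3 <;> rw [h3] <;> simp
    obtain ⟨x, hx, hx0, hxw⟩ := hLG.sur (fun i => e i ^ 2) (fun i => ⟨he2 i, pow_ne_zero 2 (he0 i)⟩)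
    obtain ⟨x', hx'⟩ := hsq x
    have hx'0 : x' ≠ 0 := by
      rintro rfl
      apply hx0
      rw [← hx', zero_pow (by norm_num)]
    obtain ⟨χ, hχm, hχ, V₃, hV₃o, hV₃⟩ := char_sq (F := F) h2 hx'0 (fun g => by
      rw [hx']
      exact mem_Fx.1 hx g (Subgroup.mem_top _))
    have hχδ : ∀ i, ∀ h ∈ H i, χ h = δ i h := by
      intro i h hh
      obtain ⟨w, hw, hw0, hxw'⟩ := hxw i
      apply sgn_inj h2 hx'0
      rw [← hχ]
      have h3 : x' ^ 2 = (e i * w) ^ 2 := by rw [hx', hxw', mul_pow]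
      have h4 : h (e i * w) = (((δ i h : ℤˣ) : ℤ) : K) * (e i * w) := by
        rw [map_mul, he i h hh, mem_Fx.1 hw h hh, mul_assoc]
      rcases sq_eq_sq_iff_eq_or_eq_neg.1 h3 with h5 | h5
      · rw [h5, h4]
      · rw [h5, map_neg, h4]
        ring
    refine ⟨{ toFun := fun g => θ g * cp c (χ g), map_one' := ?_, map_mul' := ?_ }, ?_, ?_⟩
    · have h3 : θ 1 = 1 := by
        have := hθm 1 1
        rw [mul_one] at this
        exact (mul_eq_left.1 this.symm)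
      have h4 : χ 1 = 1 := by
        have := hχm 1 1
        rw [mul_one] at this
        exact (mul_eq_left.1 this.symm)
      rw [h3, h4, cp_one, mul_one]
    · intro g h
      show θ (g * h) * cp c (χ (g * h)) = θ g * cp c (χ g) * (θ h * cp c (χ h))
      rw [hθm, hχm, cp_mul hc2, mul_assoc, mul_assoc, ← mul_assoc (θ h), cp_comm hcc (χ g) (θ h), mul_assoc]
    · refine Subgroup.isOpen_mono (H₁ := V₂ ⊓ V₃) (fun v hv => ?_) (inf_open hV₂o hV₃o)
      rw [MonoidHom.mem_ker]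
      show θ v * cp c (χ v) = 1
      rw [hV₂ v hv.1 (Subgroup.mem_top _), hV₃ v hv.2, cp_one, mul_one]
    · intro i x
      show θ x * cp c (χ x) = φ i x
      rw [hχδ i x x.2, ← hδ i x x.2, hf i x x.2]

/-- uniqueness -/
theorem uniq [IsGalois F K] (h2 : (2 : K) ≠ 0) (hKUM : S_KUM) {ι : Type} (H : ι → Subgroup (K ≃ₐ[F] K))
    (hinj : ∀ x ∈ Fx (⊤ : Subgroup (K ≃ₐ[F] K)), x ≠ 0 → (∀ i, ∃ w ∈ Fx (H i), x = w ^ 2) →
      ∃ w ∈ Fx (⊤ : Subgroup (K ≃ₐ[F] K)), x = w ^ 2) {P : Type} [Group P] [Finite P] {k : ℕ} (hP : Nat.card P = 2 ^ k)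
    (ψ ψ' : (K ≃ₐ[F] K) →* P) (hψ : IsOpen (ψ.ker : Set (K ≃ₐ[F] K))) (hψ' : IsOpen (ψ'.ker : Set (K ≃ₐ[F] K)))
    (h : ∀ i, ∀ x ∈ H i, ψ x = ψ' x) : ψ = ψ' := by
  classical
  by_contra hne
  have : Fact (Nat.Prime 2) := ⟨Nat.prime_two⟩
  let Ψ : (K ≃ₐ[F] K) →* P × P := ψ.prod ψ'
  let Γ : Subgroup (P × P) := Ψ.range
  have hPP : IsPGroup 2 (P × P) := IsPGroup.of_card (n := k + k) (by rw [Nat.card_prod, hP, pow_add])
  have hΓ : IsPGroup 2 Γ := hPP.to_subgroup Γ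
  let Δ : Subgroup Γ := {
    carrier := {x | x.1.1 = x.1.2}
    one_mem' := rfl
    mul_mem' := fun {a b} ha hb => by
      show a.1.1 * b.1.1 = a.1.2 * b.1.2
      rw [show a.1.1 = a.1.2 from ha, show b.1.1 = b.1.2 from hb]
    inv_mem' := fun {a} ha => by
      show (a.1.1)⁻¹ = (a.1.2)⁻¹
      rw [show a.1.1 = a.1.2 from ha] }
  obtain ⟨n, hn⟩ := IsPGroup.iff_card.1 hΓ
  obtain ⟨b, hb⟩ := IsPGroup.iff_card.1 (hΓ.to_subgroup Δ)
  obtain ⟨g₀, hg₀⟩ : ∃ g, ψ g ≠ ψ' g := by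
    by_contra hcon
    push Not at hcon
    exact hne (MonoidHom.ext hcon)
  have hΔ : Δ ≠ ⊤ := by
    intro h3
    have h4 : (⟨Ψ g₀, ⟨g₀, rfl⟩⟩ : Γ) ∈ Δ := by
      rw [h3]
      exact Subgroup.mem_top _
    exact hg₀ h4
  have hbn : b < n := by
    have h3 : Nat.card Δ < Nat.card Γ := by
      have h5 : Nat.card Δ ≤ Nat.card Γ := Subgroup.card_le_card_group Δ
      rcases h5.lt_or_eq with h6 | h6
      · exact h6
      · exact absurd (Subgroup.eq_top_of_card_eq Δ h6) hΔ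
    rw [hb, hn] at h3
    exact (Nat.pow_lt_pow_iff_right (by norm_num)).1 h3
  obtain ⟨M, hM, hΔM⟩ := Sylow.exists_subgroup_card_pow_prime_le 2 (n := b) (m := n - 1) (by
    rw [hn]
    exact pow_dvd_pow 2 (Nat.sub_le n 1)) Δ hb (by omega)
  have hidx : M.index = 2 := by
    have h3 := M.card_mul_index
    rw [hM, hn] at h3
    have h4 : 2 ^ n = 2 ^ (n - 1) * 2 := by
      rw [← pow_succ]
      congr 1
      omega
    rw [h4] at h3
    exact Nat.eq_of_mul_eq_mul_left (by positivity) h3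
  let γ : (K ≃ₐ[F] K) → Γ := fun g => ⟨Ψ g, ⟨g, rfl⟩⟩
  have hγm : ∀ g h, γ (g * h) = γ g * γ h := fun g h => Subtype.ext (map_mul Ψ g h)
  let χ : (K ≃ₐ[F] K) → ℤˣ := fun g => if γ g ∈ M then 1 else -1
  have hχ1 : ∀ g, χ g = 1 ↔ γ g ∈ M := fun g => by
    show (if γ g ∈ M then (1 : ℤˣ) else -1) = 1 ↔ _
    split_ifs with h3
    · exact ⟨fun _ => h3, fun _ => rfl⟩
    · exact ⟨fun h4 => absurd h4 (by decide), fun h4 => absurd h4 h3⟩
  have hχh : HomOn (⊤ : Subgroup (K ≃ₐ[F] K)) χ := {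
    mul := fun g _ h _ => by
      have h3 := Subgroup.mul_mem_iff_of_index_two hidx (a := γ g) (b := γ h)
      rw [← hγm, ← hχ1, ← hχ1, ← hχ1] at h3
      rcases unit_cases (χ g) with h4 | h4 <;> rcases unit_cases (χ h) with h5 | h5 <;> rcases unit_cases (χ (g * h)) with h6 | h6 <;>
        rw [h4, h5, h6] at h3 <;> rw [h4, h5, h6] <;> revert h3 <;> decide
    cont := ⟨ψ.ker ⊓ ψ'.ker, inf_open hψ hψ', fun v hv _ => by
      rw [hχ1]
      have h3 : γ v = 1 := Subtype.ext (Prod.ext hv.1 hv.2)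
      rw [h3]
      exact one_mem _⟩ }
  have hKc : IsClosed ((⊤ : Subgroup (K ≃ₐ[F] K)) : Set (K ≃ₐ[F] K)) := by
    rw [Subgroup.coe_top]
    exact isClosed_univ
  obtain ⟨s, hs0, hs⟩ := hKUM F K ⊤ hKc χ hχh
  have hsF : ∀ i, s ∈ Fx (H i) := fun i => mem_Fx.2 fun h' hh => by
    rw [hs h' (Subgroup.mem_top _), (hχ1 h').2 (hΔM (show (γ h').1.1 = (γ h').1.2 from h i h' hh))]
    simp
  have hs2 : s ^ 2 ∈ Fx (⊤ : Subgroup (K ≃ₐ[F] K)) := mem_Fx.2 fun h' hh => by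
    rw [map_pow, hs h' hh, mul_pow]
    rcases unit_cases (χ h') with h3 | h3 <;> rw [h3] <;> simp
  obtain ⟨w, hw, hsw⟩ := hinj (s ^ 2) hs2 (pow_ne_zero 2 hs0) (fun i => ⟨s, hsF i, rfl⟩)
  have hsfix : ∀ g : K ≃ₐ[F] K, g s = s := by
    intro g
    rcases sq_eq_sq_iff_eq_or_eq_neg.1 hsw with h3 | h3
    · rw [h3]
      exact mem_Fx.1 hw g (Subgroup.mem_top _)
    · rw [h3, map_neg, mem_Fx.1 hw g (Subgroup.mem_top _)]
  have hall : ∀ g, χ g = 1 := fun g => by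
    apply sgn_inj h2 hs0
    rw [← hs g (Subgroup.mem_top _), hsfix g]
    simp
  have hMtop : M = ⊤ := by
    rw [Subgroup.eq_top_iff']
    rintro ⟨y, g, rfl⟩
    exact (hχ1 g).1 (hall g)
  rw [hMtop, Subgroup.index_top] at hidx
  omega

theorem free : S_FREE := by
  intro hKUM hEMB F K _ _ _ _ h2 hsq ι H hH hLG hinj P _ _ hk φ hφ
  obtain ⟨k, hP⟩ := hk
  obtain ⟨ψ, hψ1, hψ2⟩ := exist h2 hsq hKUM hEMB H hH hLG k P hP φ hφ
  refine ⟨ψ, ⟨hψ1, hψ2⟩, fun ψ' hψ' => ?_⟩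
  refine uniq h2 hKUM H hinj hP ψ' ψ hψ'.1 hψ1 fun i x hx => ?_
  rw [hψ'.2 i ⟨x, hx⟩, ← hψ2 i ⟨x, hx⟩]

end Pool.Agent.P8H40.FP
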