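import Pool.Agent.P8H47.FP.Stm3
import Pool.Agent.P8H40.FP.Free

/-! # Project FP, package LFOUR -/

set_option autoImplicit false

namespace Pool.Agent.P8H40.FP

open Pool.Agent.P8H47.FP
open Pool.Agent.Y920.EP (pwG)
open Pool.Agent.P8H47.EC2 (Dat S_AP)
open Pool.Agent.P8H47.EC3 (Good Z Imm)

variable {F : Type} [Field F]

lemma val_one_add {K : Type} [Field K] (O : ValuationSubring K) {m : K} (hm : O.valuation m < 1) : O.valuation (1 + m) = 1 := O.valuation.map_one_add_of_lt hm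

/-- membership in `T` -/
lemma memT {K : IntermediateField F (AlgebraicClosure F)} {T : Subgroup Fˣ} {O : ValuationSubring K} (hG : Good 2 K T O)
    {a b : Fˣ} {s : K} (hs : s ∈ IntermediateField.fixedField (Z (F := F) O)) (hs0 : s ≠ 0)
    (h : algebraMap F K b = algebraMap F K a * s ^ 2) : a⁻¹ * b ∈ T := by
  rw [hG.ker]
  refine ⟨s, hs, ?_⟩
  have ha : algebraMap F K a ≠ 0 := by
    rw [Ne, map_eq_zero]
    exact a.ne_zero
  rw [Units.val_mul, Units.val_inv_eq_inv_val, map_mul, map_inv₀, h]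
  field_simp

lemma pair {K : IntermediateField F (AlgebraicClosure F)} {T : Subgroup Fˣ} {O : ValuationSubring K} (hG : Good 2 K T O)
    {a b : Fˣ} {s t : K} (hs : s ∈ IntermediateField.fixedField (Z (F := F) O)) (hs0 : s ≠ 0)
    (ht : t ∈ IntermediateField.fixedField (Z (F := F) O)) (ht0 : t ≠ 0)
    (h : algebraMap F K a * s ^ 2 + algebraMap F K b * t ^ 2 = 1)
    (hle : O.valuation (algebraMap F K a * s ^ 2) ≤ O.valuation (algebraMap F K b * t ^ 2)) :
    ∃ X Y : Fˣ, (X : F) + Y = 1 ∧ a⁻¹ * X ∈ T ∧ b⁻¹ * Y ∈ T := by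
  set E := IntermediateField.fixedField (Z (F := F) O) with hE
  have haE : ∀ f : F, algebraMap F K f ∈ E := fun f => E.algebraMap_mem f
  have ha : algebraMap F K a ≠ 0 := by
    rw [Ne, map_eq_zero]
    exact a.ne_zero
  have hb : algebraMap F K b ≠ 0 := by
    rw [Ne, map_eq_zero]
    exact b.ne_zero
  have hX0 : algebraMap F K a * s ^ 2 ≠ 0 := mul_ne_zero ha (pow_ne_zero 2 hs0)
  have hY0 : algebraMap F K b * t ^ 2 ≠ 0 := mul_ne_zero hb (pow_ne_zero 2 ht0)
  obtain ⟨c, hc, m, hm, hm1, hX⟩ := hG.imm _ (mul_mem (haE a) (pow_mem hs 2)) hX0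
  have h1m : O.valuation (1 + m) = 1 := val_one_add O hm1
  have h1m0 : (1 + m : K) ≠ 0 := fun h0 => by
    rw [h0, map_zero] at h1m
    exact zero_ne_one h1m
  have hwc : O.valuation (algebraMap F K c) = O.valuation (algebraMap F K a * s ^ 2) := by
    rw [hX, map_mul, h1m, mul_one]
  set m' : K := algebraMap F K c * m / (algebraMap F K b * t ^ 2) with hm'
  have hm'E : m' ∈ E := div_mem (mul_mem (haE c) hm) (mul_mem (haE b) (pow_mem ht 2))
  have hY0' : O.valuation (algebraMap F K b * t ^ 2) ≠ 0 := (map_ne_zero _).2 hY0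
  have hm'1 : O.valuation m' < 1 := by
    rw [hm', map_div₀, map_mul, hwc]
    rw [div_lt_one₀ (zero_lt_iff.2 hY0')]
    calc O.valuation (algebraMap F K a * s ^ 2) * O.valuation m
        ≤ O.valuation (algebraMap F K b * t ^ 2) * O.valuation m := mul_le_mul_left hle _
      _ < O.valuation (algebraMap F K b * t ^ 2) * 1 := (mul_lt_mul_iff_right₀ (zero_lt_iff.2 hY0')).2 hm1
      _ = _ := mul_one _
  have h1m' : O.valuation (1 + m') = 1 := val_one_add O hm'1
  have h1m'0 : (1 + m' : K) ≠ 0 := fun h0 => by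
    rw [h0, map_zero] at h1m'
    exact zero_ne_one h1m'
  have hkey : algebraMap F K (1 - c) = (algebraMap F K b * t ^ 2) * (1 + m') := by
    rw [map_sub, map_one, hm', mul_add, mul_one, mul_div_cancel₀ _ hY0]
    linear_combination -h + hX
  have h1c : (1 : F) - c ≠ 0 := by
    intro h0
    rw [h0, map_zero] at hkey
    exact (mul_ne_zero hY0 h1m'0) hkey.symm
  obtain ⟨β, hβ, hβ2⟩ := hG.root m hm hm1
  obtain ⟨β', hβ', hβ'2⟩ := hG.root m' hm'E hm'1
  have hβ0 : β ≠ 0 := by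
    rintro rfl
    apply h1m0
    rw [← hβ2]
    simp
  have hβ'0 : β' ≠ 0 := by
    rintro rfl
    apply h1m'0
    rw [← hβ'2]
    simp
  refine ⟨Units.mk0 c hc, Units.mk0 (1 - c) h1c, by simp, ?_, ?_⟩
  · refine memT hG (s := s / β) (div_mem hs hβ) (div_ne_zero hs0 hβ0) ?_
    rw [Units.val_mk0, div_pow, hβ2, ← mul_div_assoc, hX, mul_div_assoc, div_self h1m0, mul_one]
  · refine memT hG (s := t * β') (mul_mem ht hβ') (mul_ne_zero ht0 hβ'0) ?_
    rw [Units.val_mk0, mul_pow, hβ'2, hkey]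
    ring

theorem lfour : S_LFOUR := by
  intro F _ h2 K T O₀ J hD O hG x y hxy
  obtain ⟨u, hu, v, hv, h⟩ := hxy
  have huE : u ∈ IntermediateField.fixedField (Z (F := F) O) := hu
  have hvE : v ∈ IntermediateField.fixedField (Z (F := F) O) := hv
  have hx0 : algebraMap F K x ≠ 0 := by
    rw [Ne, map_eq_zero]
    exact x.ne_zero
  have hy0 : algebraMap F K y ≠ 0 := by
    rw [Ne, map_eq_zero]
    exact y.ne_zero
  -- `1 - z`
  have hone : ∀ z : Fˣ, (z : F) ∈ O₀ → (z : F)⁻¹ ∉ O₀ → ∃ t ∈ T, (t : F) = 1 - z := by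
    intro z hz hz'
    obtain ⟨t, ht, e⟩ := hD.one_add (-z) (O₀.neg_mem _ hz) (fun h3 => hz' (by
      have h4 := O₀.neg_mem _ h3
      rwa [inv_neg, neg_neg] at h4))
    exact ⟨t, ht, by rw [e]; ring⟩
  by_cases hv0 : v = 0
  · rw [hv0] at h
    have hu0 : u ≠ 0 := by
      rintro rfl
      apply hy0
      rw [h]
      ring
    have hyT : y ∈ T := by
      have := memT hG (a := 1) (b := y) huE hu0 (by rw [Units.val_one, map_one, h]; ring)
      rwa [inv_one, one_mul] at this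
    obtain ⟨z, hz, hz1, hz2, -⟩ := hD.cls x
    obtain ⟨t, ht, e⟩ := hone z hz1 hz2
    exact ⟨z, t, by rw [e]; ring, hz, mul_mem (inv_mem hyT) ht⟩
  by_cases hu0 : u = 0
  · rw [hu0] at h
    have hxyT : x⁻¹ * (-y) ∈ T := memT hG hvE hv0 (by
      rw [Units.val_neg, map_neg, h]
      ring)
    obtain ⟨z, hz, hz1, hz2, -⟩ := hD.cls x⁻¹
    obtain ⟨t, ht, e⟩ := hone z hz1 hz2
    rw [inv_inv] at hz
    refine ⟨z⁻¹, -z⁻¹ * t, ?_, ?_, ?_⟩
    · rw [Units.val_mul, Units.val_neg, e, Units.val_inv_eq_inv_val]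
      have := z.ne_zero
      field_simp
      ring
    · have h5 := inv_mem hz
      rwa [mul_inv] at h5
    · have h5 := mul_mem (mul_mem (inv_mem hxyT) (inv_mem hz)) ht
      have h6 : y⁻¹ * (-z⁻¹ * t) = (x⁻¹ * (-y))⁻¹ * (x * z)⁻¹ * t := by
        apply Units.ext
        simp only [Units.val_mul, Units.val_neg, Units.val_inv_eq_inv_val]
        have h7 := x.ne_zero
        have h8 := y.ne_zero
        have h9 := z.ne_zero
        field_simp
      rw [h6]
      exact h5
  have hsum : algebraMap F K x * (v / u) ^ 2 + algebraMap F K y * (1 / u) ^ 2 = 1 := by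
    rw [h]
    field_simp
    ring
  have hvu : v / u ∈ IntermediateField.fixedField (Z (F := F) O) := div_mem hvE huE
  have h1u : 1 / u ∈ IntermediateField.fixedField (Z (F := F) O) := div_mem (one_mem _) huE
  rcases le_total (O.valuation (algebraMap F K x * (v / u) ^ 2)) (O.valuation (algebraMap F K y * (1 / u) ^ 2)) with hle | hle
  · exact pair hG hvu (div_ne_zero hv0 hu0) h1u (div_ne_zero one_ne_zero hu0) hsum hle
  · obtain ⟨X, Y, h3, h4, h5⟩ := pair hG h1u (div_ne_zero one_ne_zero hu0) hvu (div_ne_zero hv0 hu0) (by rw [add_comm]; exact hsum) hle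
    exact ⟨Y, X, by rw [add_comm]; exact h3, h5, h4⟩

end Pool.Agent.P8H40.FP
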