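import Pool.Agent.P8H47.FP.Stm3
import Pool.Agent.P8H55.EC2.Ap
import Pool.Agent.P8H40.FP.LFour

/-! # Project FP, package LGF -/

set_option autoImplicit false

namespace Pool.Agent.P8H40.FP

open Pool.Agent.P8H47.FP
open Pool.Agent.Y920.EP (pwG)
open Pool.Agent.P8H47.EC2 (Dat S_AP claim3 claim4)
open Pool.Agent.P8H47.EC3 (Good Z Imm)

variable {F : Type} [Field F]

/-- `z` is of the form `u² - a v²` -/
def NN (a z : Fˣ) : Prop := ∃ u v : F, (z : F) = u ^ 2 - a * v ^ 2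

lemma NN.mul {a z z' : Fˣ} (h : NN a z) (h' : NN a z') : NN a (z * z') := by
  obtain ⟨u, v, e⟩ := h
  obtain ⟨u', v', e'⟩ := h'
  refine ⟨u * u' + a * v * v', u * v' + u' * v, ?_⟩
  rw [Units.val_mul, e, e']
  ring

lemma NN.inv {a z : Fˣ} (h : NN a z) : NN a z⁻¹ := by
  obtain ⟨u, v, e⟩ := h
  refine ⟨u / z, v / z, ?_⟩
  have hz := z.ne_zero
  rw [Units.val_inv_eq_inv_val]
  field_simp
  rw [e]

lemma NN.symm (h2 : (2 : F) ≠ 0) {a z : Fˣ} (h : NN a z) : NN z a := by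
  obtain ⟨u, v, e⟩ := h
  by_cases hv : v = 0
  · have hu : u ≠ 0 := by
      rintro rfl
      apply z.ne_zero
      rw [e, hv]
      ring
    refine ⟨((a : F) + 1) / 2, ((a : F) - 1) / (2 * u), ?_⟩
    rw [e, hv]
    field_simp
    ring
  · refine ⟨u / v, 1 / v, ?_⟩
    rw [e]
    field_simp
    ring

lemma mem_top_iff {K : IntermediateField F (AlgebraicClosure F)} (hGal : IsGalois F K) (x : K) :
    x ∈ Fx (⊤ : Subgroup (K ≃ₐ[F] K)) ↔ ∃ f : F, algebraMap F K f = x := by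
  have h1 : IntermediateField.fixedField (⊤ : Subgroup (K ≃ₐ[F] K)) = ⊥ := by
    rw [← IntermediateField.fixingSubgroup_bot]
    exact InfiniteGalois.fixedField_fixingSubgroup ⊥
  unfold Fx
  rw [h1, IntermediateField.mem_toSubfield, IntermediateField.mem_bot]
  rfl

theorem lgf : S_LGF := by
  intro hAP hL2 hL4 F _ h2 K hGal ι _ T O₀ J hD hne O hG hDsq
  classical
  -- (R)
  have hR : ∀ t ∈ ⨅ i, T i, ∀ z : Fˣ, NN t z := by
    intro t ht z
    rcases isEmpty_or_nonempty ι with hι | hι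
    · exact hDsq z (Subgroup.mem_iInf.2 fun i => isEmptyElim i) t ht
    · obtain ⟨z', c, hz', hc⟩ := claim4 hD Pool.Agent.P8H55.EC2.cl hAP two_ne_zero hne Finset.univ Finset.univ_nonempty t
        (fun i _ => Subgroup.mem_iInf.1 ht i) (-z)
      have h3 : NN t (-z') := ⟨1, c, by
        rw [Units.val_neg]
        linear_combination -hc⟩
      have hs : ((-z)⁻¹ * z')⁻¹ ∈ ⨅ i, T i := inv_mem (Subgroup.mem_iInf.2 fun i => hz' i (Finset.mem_univ i))
      have h4 : NN t ((-z)⁻¹ * z')⁻¹ := hDsq _ hs t ht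
      have h5 := h3.mul h4
      have h6 : -z' * ((-z)⁻¹ * z')⁻¹ = z := by
        apply Units.ext
        simp only [Units.val_mul, Units.val_neg, Units.val_inv_eq_inv_val]
        have h7 := z.ne_zero
        have h8 := z'.ne_zero
        field_simp
      rwa [h6] at h5
  refine ⟨⟨fun i x hx => mem_Fx.2 fun h hh => mem_Fx.1 hx h (Subgroup.mem_top _), ?_, ?_⟩, fun t ht z => hR t ht z⟩
  · -- sur
    intro y hy
    have key : ∀ i, ∃ f : Fˣ, ∃ β ∈ IntermediateField.fixedField (Z (F := F) (O i)), β ≠ 0 ∧ y i = algebraMap F K f * β ^ 2 := by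
      intro i
      obtain ⟨f, hf, m, hm, hm1, e⟩ := (hG i).imm (y i) (hy i).1 (hy i).2
      obtain ⟨β, hβ, hβ2⟩ := (hG i).root m hm hm1
      refine ⟨Units.mk0 f hf, β, hβ, ?_, by rw [Units.val_mk0, hβ2, e]⟩
      rintro rfl
      have h3 := val_one_add (O i) hm1
      rw [← hβ2, zero_pow two_ne_zero, map_zero] at h3
      exact zero_ne_one h3
    choose f β hβ hβ0 hyf using key
    obtain ⟨z, hz⟩ := claim3 hD hAP hne Finset.univ f
    refine ⟨algebraMap F K z, (mem_top_iff hGal _).2 ⟨z, rfl⟩, ?_, fun i => ?_⟩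
    · rw [Ne, map_eq_zero]
      exact z.ne_zero
    · obtain ⟨w, hw, hw2⟩ := ((hG i).ker _).1 (hz i (Finset.mem_univ i)).1
      have hf0 : algebraMap F K (f i) ≠ 0 := by
        rw [Ne, map_eq_zero]
        exact (f i).ne_zero
      have hz0 : algebraMap F K z ≠ 0 := by
        rw [Ne, map_eq_zero]
        exact z.ne_zero
      rw [Units.val_mul, Units.val_inv_eq_inv_val, map_mul, map_inv₀] at hw2
      have hw0 : w ≠ 0 := by
        rintro rfl
        rw [zero_pow two_ne_zero] at hw2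
        exact mul_ne_zero (inv_ne_zero hf0) hz0 hw2.symm
      refine ⟨w / β i, div_mem (S := IntermediateField F K) hw (hβ i), div_ne_zero hw0 (hβ0 i), ?_⟩
      rw [hyf i, div_pow, hw2]
      have := hβ0 i
      field_simp
  · -- loc
    intro x hx y hy hx0 hy0 hloc
    obtain ⟨x₀, rfl⟩ := (mem_top_iff hGal x).1 hx
    obtain ⟨y₀, rfl⟩ := (mem_top_iff hGal y).1 hy
    have hx0' : x₀ ≠ 0 := by
      rintro rfl
      exact hx0 (map_zero _)
    have hy0' : y₀ ≠ 0 := by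
      rintro rfl
      exact hy0 (map_zero _)
    obtain ⟨X, Y, hXY, hT⟩ := hL2 hAP F 2 two_ne_zero h2 ι T O₀ J hD hne (Units.mk0 x₀ hx0') (Units.mk0 y₀ hy0') (fun i =>
      hL4 F h2 K (T i) (O₀ i) (J i) (hD i) (O i) (hG i) _ _ (hloc i))
    set a : Fˣ := Units.mk0 x₀ hx0' with ha
    set b : Fˣ := Units.mk0 y₀ hy0' with hb
    have hd : a⁻¹ * X ∈ ⨅ i, T i := Subgroup.mem_iInf.2 fun i => (hT i).1
    have hd' : b⁻¹ * Y ∈ ⨅ i, T i := Subgroup.mem_iInf.2 fun i => (hT i).2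
    have h3 : NN X Y := ⟨1, 1, by linear_combination hXY⟩
    have h4 : NN Y X := h3.symm h2
    have h5 : NN Y (a⁻¹ * X) := (hR _ hd Y).symm h2
    have h6 : NN Y a := by
      have := h4.mul h5.inv
      have e : X * (a⁻¹ * X)⁻¹ = a := by group
      rwa [e] at this
    have h7 : NN a Y := h6.symm h2
    have h8 : NN a (b⁻¹ * Y) := (hR _ hd' a).symm h2
    have h9 : NN a b := by
      have := h7.mul h8.inv
      have e : Y * (b⁻¹ * Y)⁻¹ = b := by group
      rwa [e] at this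
    obtain ⟨u, v, e⟩ := h9
    refine ⟨algebraMap F K u, (mem_top_iff hGal _).2 ⟨u, rfl⟩, algebraMap F K v, (mem_top_iff hGal _).2 ⟨v, rfl⟩, ?_⟩
    have e' : y₀ = u ^ 2 - x₀ * v ^ 2 := e
    rw [e', map_sub, map_mul, map_pow, map_pow]

end Pool.Agent.P8H40.FP
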